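import Mathlib

/-!
# Waring rank of large generic hyperplane arrangements

For `n ≥ 2` a generic arrangement `F = l_1 ... l_d` in `P^n` that is a sum of `r` powers `m_j ^ d`
has `d ≤ 2 r ^ 2` or `d < r`. Indeed, on the hyperplane `l_i = 0` the powers `m_j ^ d` add up to zero,
and powers of pairwise non-proportional linear forms are linearly independent as soon as the exponent
is large compared with their number. Hence two of the `m_j` become proportional on `l_i = 0`, that is,
`l_i` lies in the span of two of the `m_j`, and such a span contains at most two of the `l_i`.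
-/

set_option autoImplicit false

namespace Pool.Agent.Results.MP_02c618_ag.NoBoundedRank

open MvPolynomial

/-- `l_1, ..., l_d` are linear forms in `n + 1` variables, `d ≥ n + 1`, and any `n + 1` of them are
linearly independent: a generic arrangement of size `d` in `P^n`. -/
def IsGenericArrangement {n d : ℕ} (l : Fin d → MvPolynomial (Fin (n + 1)) ℂ) : Prop :=
  (∀ i, (l i).IsHomogeneous 1) ∧ n + 1 ≤ d ∧
    ∀ s : Finset (Fin d), s.card = n + 1 → LinearIndependent ℂ (fun i : s => l i)

/-- `F` is a sum of `r` powers `m_j ^ d` of linear forms `m_j`. -/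
def IsSumOfPowers {n : ℕ} (d r : ℕ) (F : MvPolynomial (Fin (n + 1)) ℂ) : Prop :=
  ∃ m : Fin r → MvPolynomial (Fin (n + 1)) ℂ, (∀ j, (m j).IsHomogeneous 1) ∧ F = ∑ j, (m j) ^ d

/-- The Waring rank of the form `F` of degree `d` is `r`. -/
def HasWaringRank {n : ℕ} (d r : ℕ) (F : MvPolynomial (Fin (n + 1)) ℂ) : Prop :=
  IsLeast {r | IsSumOfPowers d r F} r

/-- There are generic arrangements in `P^n` of arbitrarily large size with Waring rank
`(2n choose n)`. -/
def P (n : ℕ) : Prop :=
  ∀ D : ℕ, ∃ d : ℕ, D ≤ d ∧ ∃ l : Fin d → MvPolynomial (Fin (n + 1)) ℂ,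
    IsGenericArrangement l ∧ HasWaringRank d ((2 * n).choose n) (∏ i, l i)

/-! ### Differences of polynomials -/

theorem coeff_diff {K : Type*} [Field K] [CharZero K] (p : Polynomial K) (c : K) (hc : c ≠ 0)
    (N : ℕ) (hN : p.natDegree = N + 1) :
    (Polynomial.taylor c p - p).coeff N ≠ 0 := by
  have h1 : (Polynomial.hasseDeriv N p).natDegree ≤ 1 := by
    have := Polynomial.natDegree_hasseDeriv_le p N
    omega
  rw [Polynomial.coeff_sub, Polynomial.taylor_coeff,
    Polynomial.eq_X_add_C_of_natDegree_le_one h1]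
  simp only [Polynomial.eval_add, Polynomial.eval_mul, Polynomial.eval_C, Polynomial.eval_X,
    Polynomial.hasseDeriv_coeff]
  have h2 : (1 + N).choose N = N + 1 := by
    rw [add_comm, Nat.choose_succ_self_right]
  have h3 : (0 + N).choose N = 1 := by simp
  rw [h2, h3, show 1 + N = N + 1 by omega, zero_add]
  have h4 : p.coeff (N + 1) ≠ 0 := by
    rw [← hN]
    intro h
    have h5 : p.leadingCoeff = 0 := h
    rw [Polynomial.leadingCoeff_eq_zero] at h5
    rw [h5] at hN
    simp at hN
  have h6 : ((N + 1 : ℕ) : K) ≠ 0 := by exact_mod_cast Nat.succ_ne_zero N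
  intro h
  apply mul_ne_zero (mul_ne_zero h6 h4) hc
  linear_combination h

/-- If `p (f x)` is a sum of functions of `g_i x` and each `g_i` vanishes at a point at which `f`
does not vanish, then the degree of `p` is less than the number of the `g_i`. -/
theorem degree_lt {K V ι : Type*} [Field K] [CharZero K] [AddCommGroup V] [Module K V]
    [DecidableEq ι] (f : V →ₗ[K] K) (hf : ∃ x, f x ≠ 0) (s : Finset ι) :
    ∀ (g : ι → V →ₗ[K] K) (φ : ι → K → K) (p : Polynomial K),
      (∀ i ∈ s, ∃ w, g i w = 0 ∧ f w ≠ 0) →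
      (∀ x, p.eval (f x) = ∑ i ∈ s, φ i (g i x)) → p ≠ 0 → p.natDegree < s.card := by
  induction s using Finset.induction_on with
  | empty =>
    intro g φ p _ h hp
    exfalso
    apply hp
    obtain ⟨x, hx⟩ := hf
    apply Polynomial.funext
    intro t
    have h1 := h ((t / f x) • x)
    rw [map_smul, smul_eq_mul, div_mul_cancel₀ _ hx] at h1
    simpa using h1
  | insert i s his ih =>
    intro g φ p hw h hp
    rw [Finset.card_insert_of_notMem his]
    rcases Nat.eq_zero_or_pos p.natDegree with h0 | h0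
    · omega
    obtain ⟨N, hN⟩ : ∃ N, p.natDegree = N + 1 := ⟨p.natDegree - 1, by omega⟩
    obtain ⟨w, hw1, hw2⟩ := hw i (Finset.mem_insert_self _ _)
    have h1 := coeff_diff p (f w) hw2 N hN
    have h2 : Polynomial.taylor (f w) p - p ≠ 0 := by
      intro h3; rw [h3] at h1; simp at h1
    have h3 := ih g (fun j t => φ j (t + g j w) - φ j t) (Polynomial.taylor (f w) p - p)
      (fun j hj => hw j (Finset.mem_insert_of_mem hj)) (by
        intro x
        have e1 := h x
        have e2 := h (x + w)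
        rw [Finset.sum_insert his] at e1 e2
        rw [Polynomial.eval_sub, Polynomial.taylor_eval, e1]
        rw [map_add, map_add, hw1, add_zero] at e2
        rw [e2, Finset.sum_sub_distrib]
        simp only [map_add]
        ring) h2
    have h4 := Polynomial.le_natDegree_of_ne_zero h1
    omega

/-! ### Linear forms -/

theorem exists_lin {n : ℕ} (m : MvPolynomial (Fin n) ℂ) (hm : m.IsHomogeneous 1) :
    ∃ a : Fin n → ℂ, m = ∑ i, C (a i) * X i := by
  refine ⟨fun i => coeff (Finsupp.single i 1) m, ?_⟩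
  ext d
  rw [coeff_sum]
  by_cases hd : d.degree = 1
  · obtain ⟨i, rfl⟩ : ∃ i, d = Finsupp.single i 1 := by
      have h1 : ∃ i, d i ≠ 0 := by
        by_contra hcon
        push Not at hcon
        have : d = 0 := by ext i; simpa using hcon i
        rw [this] at hd
        simp at hd
      obtain ⟨i, hi⟩ := h1
      refine ⟨i, ?_⟩
      obtain ⟨d', hd'⟩ : ∃ d', d = Finsupp.single i 1 + d' := by
        refine ⟨d - Finsupp.single i 1, ?_⟩
        rw [add_tsub_cancel_of_le]
        rw [Finsupp.single_le_iff]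
        omega
      have hd'1 : d'.degree = 0 := by
        rw [hd', map_add, Finsupp.degree_single] at hd
        omega
      rw [Finsupp.degree_eq_zero_iff] at hd'1
      rw [hd', hd'1, add_zero]
    simp only [coeff_C_mul, coeff_X, Finsupp.single_left_inj one_ne_zero]
    simp
  · rw [hm.coeff_eq_zero hd]
    symm
    apply Finset.sum_eq_zero
    intro i _
    rw [coeff_C_mul, coeff_X, if_neg, mul_zero]
    rintro rfl
    simp at hd

/-- The linear functional of a linear form. -/
noncomputable def fn {n : ℕ} (m : MvPolynomial (Fin n) ℂ) (hm : m.IsHomogeneous 1) :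
    (Fin n → ℂ) →ₗ[ℂ] ℂ where
  toFun x := eval x m
  map_add' x y := by
    obtain ⟨a, rfl⟩ := exists_lin m hm
    simp [mul_add, Finset.sum_add_distrib]
  map_smul' c x := by
    obtain ⟨a, rfl⟩ := exists_lin m hm
    simp only [map_sum, map_mul, eval_C, eval_X, Pi.smul_apply, smul_eq_mul, RingHom.id_apply,
      Finset.mul_sum]
    exact Finset.sum_congr rfl fun i _ => by ring

theorem fn_apply {n : ℕ} (m : MvPolynomial (Fin n) ℂ) (hm : m.IsHomogeneous 1) (x : Fin n → ℂ) :
    fn m hm x = eval x m := rfl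

theorem span_of_ker {n : ℕ} {m m1 m2 : MvPolynomial (Fin n) ℂ} (hm : m.IsHomogeneous 1)
    (hm1 : m1.IsHomogeneous 1) (hm2 : m2.IsHomogeneous 1)
    (h : ∀ x, eval x m1 = 0 → eval x m2 = 0 → eval x m = 0) :
    ∃ α β : ℂ, m = C α * m1 + C β * m2 := by
  have h1 : fn m hm ∈ Submodule.span ℂ (Set.range ![fn m1 hm1, fn m2 hm2]) := by
    apply mem_span_of_iInf_ker_le_ker
    intro x hx
    simp only [Submodule.mem_iInf, LinearMap.mem_ker] at hx ⊢
    exact h x (hx 0) (hx 1)
  rw [Submodule.mem_span_range_iff_exists_fun] at h1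
  obtain ⟨c, hc⟩ := h1
  refine ⟨c 0, c 1, ?_⟩
  apply MvPolynomial.funext
  intro x
  have h2 := congrArg (fun f => f x) hc
  simp only [Fin.sum_univ_two, LinearMap.add_apply, LinearMap.smul_apply, smul_eq_mul] at h2
  simp only [map_add, map_mul, eval_C]
  exact h2.symm

theorem exists_pair {n d r : ℕ} (l : Fin d → MvPolynomial (Fin (n + 1)) ℂ)
    (hl : ∀ i, (l i).IsHomogeneous 1) (hl0 : ∏ i, l i ≠ 0)
    (m : Fin r → MvPolynomial (Fin (n + 1)) ℂ) (hm : ∀ j, (m j).IsHomogeneous 1)
    (hF : ∏ i, l i = ∑ j, (m j) ^ d) (hdr : r ≤ d) (i k : Fin d)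
    (hik : ∃ x, eval x (l k) = 0 ∧ eval x (l i) ≠ 0) :
    ∃ j0 j, j ≠ j0 ∧ (∃ v, eval v (l i) = 0 ∧ eval v (m j0) ≠ 0) ∧
      ∀ w, eval w (l i) = 0 → eval w (m j) = 0 → eval w (m j0) = 0 := by
  have heval : ∀ x, ∏ i, eval x (l i) = ∑ j, (eval x (m j)) ^ d := by
    intro x
    have := congrArg (eval x) hF
    simpa [map_prod, map_sum] using this
  -- some `m j0` does not vanish on the hyperplane
  have hex : ∃ j0, ∃ v, eval v (l i) = 0 ∧ eval v (m j0) ≠ 0 := by
    by_contra hcon
    push Not at hcon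
    obtain ⟨y, hy⟩ : ∃ y, eval y (∏ i, l i) ≠ 0 := by
      by_contra h
      push Not at h
      apply hl0
      apply MvPolynomial.funext
      intro x
      rw [h x, map_zero]
    rw [map_prod] at hy
    have hyi : eval y (l i) ≠ 0 := fun h0 => hy (Finset.prod_eq_zero (Finset.mem_univ i) h0)
    obtain ⟨x, hx1, hx2⟩ := hik
    set x' : Fin (n + 1) → ℂ := (eval y (l i) / eval x (l i)) • x with hx'
    have e1 : eval x' (l k) = 0 := by
      rw [← fn_apply _ (hl k), hx', map_smul, fn_apply, hx1, smul_zero]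
    have e2 : eval x' (l i) = eval y (l i) := by
      rw [← fn_apply _ (hl i), hx', map_smul, fn_apply, smul_eq_mul, div_mul_cancel₀ _ hx2]
    have e3 : ∀ j, eval x' (m j) = eval y (m j) := by
      intro j
      have h1 : eval (x' - y) (l i) = 0 := by
        rw [← fn_apply _ (hl i), map_sub, fn_apply, fn_apply, e2, sub_self]
      have h2 := hcon j (x' - y) h1
      rw [← fn_apply _ (hm j), map_sub, fn_apply, fn_apply] at h2
      exact sub_eq_zero.1 h2
    apply hy
    rw [heval y]
    simp only [← e3]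
    rw [← heval x']
    exact Finset.prod_eq_zero (Finset.mem_univ k) e1
  obtain ⟨j0, v, hv1, hv2⟩ := hex
  by_contra hcon
  push Not at hcon
  have hw : ∀ j, j ≠ j0 → ∃ w, eval w (l i) = 0 ∧ eval w (m j) = 0 ∧ eval w (m j0) ≠ 0 :=
    fun j hj => hcon j0 j hj ⟨v, hv1, hv2⟩
  classical
  let V : Submodule ℂ (Fin (n + 1) → ℂ) := LinearMap.ker (fn (l i) (hl i))
  have hV : ∀ x, eval x (l i) = 0 → x ∈ V := fun x hx => hx
  have hlt := degree_lt (K := ℂ) (V := V) ((fn (m j0) (hm j0)).domRestrict V)
    ⟨⟨v, hV v hv1⟩, hv2⟩ (Finset.univ.erase j0) (fun j => (fn (m j) (hm j)).domRestrict V)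
    (fun _ t => - t ^ d) (Polynomial.X ^ d) (by
      intro j hj
      obtain ⟨w, h1, h2, h3⟩ := hw j (Finset.ne_of_mem_erase hj)
      exact ⟨⟨w, hV w h1⟩, h2, h3⟩) (by
      rintro ⟨x, hx⟩
      have h1 : eval x (l i) = 0 := hx
      have h2 := heval x
      rw [Finset.prod_eq_zero (Finset.mem_univ i) h1,
        ← Finset.add_sum_erase _ _ (Finset.mem_univ j0)] at h2
      rw [Polynomial.eval_pow, Polynomial.eval_X]
      simp only [LinearMap.domRestrict_apply, fn_apply, Finset.sum_neg_distrib]
      linear_combination -h2) (pow_ne_zero _ Polynomial.X_ne_zero)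
  rw [Polynomial.natDegree_X_pow, Finset.card_erase_of_mem (Finset.mem_univ _), Finset.card_univ,
    Fintype.card_fin] at hlt
  omega

/-- In a shortest representation the `m j` are pairwise non-proportional. -/
theorem not_proportional {n d r : ℕ} (hd : 0 < d) (F : MvPolynomial (Fin (n + 1)) ℂ)
    (hleast : ∀ r', IsSumOfPowers d r' F → r ≤ r')
    (m : Fin r → MvPolynomial (Fin (n + 1)) ℂ) (hm : ∀ j, (m j).IsHomogeneous 1)
    (hF : F = ∑ j, (m j) ^ d) (j0 j : Fin r) (hj : j ≠ j0) (α : ℂ) : m j0 ≠ C α * m j := by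
  intro h
  obtain ⟨s, rfl⟩ : ∃ s, r = s + 1 := ⟨r - 1, by have := j.isLt; omega⟩
  obtain ⟨k, rfl⟩ := Fin.exists_succAbove_eq hj
  obtain ⟨γ, hγ⟩ : ∃ γ : ℂ, γ ^ d = α ^ d + 1 := IsAlgClosed.exists_pow_nat_eq _ hd
  have hs : IsSumOfPowers d s F := by
    refine ⟨fun i => if i = k then C γ * m (j0.succAbove i) else m (j0.succAbove i), ?_, ?_⟩
    · intro i
      beta_reduce
      split_ifs
      · exact (hm _).C_mul γ
      · exact hm _
    · rw [hF, Fin.sum_univ_succAbove _ j0, h,
        ← Finset.add_sum_erase _ _ (Finset.mem_univ k),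
        ← Finset.add_sum_erase (Finset.univ : Finset (Fin s)) _ (Finset.mem_univ k)]
      beta_reduce
      rw [if_pos rfl, ← add_assoc]
      congr 1
      · rw [mul_pow, mul_pow, ← map_pow, ← map_pow, hγ, map_add, map_one]
        ring
      · refine Finset.sum_congr rfl fun i hi => ?_
        rw [if_neg (Finset.ne_of_mem_erase hi)]
  have := hleast s hs
  omega

theorem bound {n d r : ℕ} (hn : 2 ≤ n) (l : Fin d → MvPolynomial (Fin (n + 1)) ℂ)
    (hl : IsGenericArrangement l) (hr : HasWaringRank d r (∏ i, l i)) (hdr : r ≤ d) :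
    d ≤ 2 * r ^ 2 := by
  classical
  obtain ⟨hl1, hnd, hli⟩ := hl
  obtain ⟨⟨m, hm, hF⟩, hleast⟩ := hr
  -- three of the forms are linearly independent
  have hthree : ∀ t : Finset (Fin d), t.card = 3 → LinearIndependent ℂ (fun i : t => l i) := by
    intro t ht
    obtain ⟨u, htu, -, hu⟩ := Finset.exists_subsuperset_card_eq (Finset.subset_univ t)
      (by omega : t.card ≤ n + 1) (by simpa using hnd)
    have h1 := hli u hu
    exact h1.comp (fun i : t => (⟨i.1, htu i.2⟩ : u)) (by
      intro a b hab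
      simp only [Subtype.mk.injEq] at hab
      exact Subtype.ext hab)
  have hne : ∀ i, l i ≠ 0 := by
    intro i
    obtain ⟨u, htu, -, hu⟩ := Finset.exists_subsuperset_card_eq
      (Finset.subset_univ ({i} : Finset (Fin d)))
      (by simp : ({i} : Finset (Fin d)).card ≤ n + 1) (by simpa using hnd)
    exact (hli u hu).ne_zero ⟨i, htu (by simp)⟩
  have hl0 : ∏ i, l i ≠ 0 := Finset.prod_ne_zero_iff.2 fun i _ => hne i
  have hk : ∀ i : Fin d, ∃ k : Fin d, k ≠ i ∧ ∃ x, eval x (l k) = 0 ∧ eval x (l i) ≠ 0 := by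
    intro i
    have : Nontrivial (Fin d) := Fin.nontrivial_iff_two_le.2 (by omega)
    obtain ⟨k, hki⟩ : ∃ k : Fin d, k ≠ i := exists_ne i
    refine ⟨k, hki, ?_⟩
    by_contra hcon
    push Not at hcon
    obtain ⟨α, β, h1⟩ := span_of_ker (hl1 i) (hl1 k) (hl1 k) (fun x h2 _ => hcon x h2)
    obtain ⟨u, htu, -, hu⟩ := Finset.exists_subsuperset_card_eq
      (Finset.subset_univ ({i, k} : Finset (Fin d)))
      (by rw [Finset.card_pair hki.symm]; omega : ({i, k} : Finset (Fin d)).card ≤ n + 1)
      (by simpa using hnd)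
    have h2 := (hli u hu).comp ![(⟨i, htu (by simp)⟩ : u), ⟨k, htu (by simp)⟩] (by
      intro a b hab
      fin_cases a <;> fin_cases b <;> simp at hab ⊢
      · exact hki hab.symm
      · exact hki hab)
    have h3 : (fun i : u => l i) ∘ ![(⟨i, htu (by simp)⟩ : u), ⟨k, htu (by simp)⟩] =
        ![l i, l k] := by
      ext1 a
      fin_cases a <;> rfl
    rw [h3, LinearIndependent.pair_iff] at h2
    have h4 := h2 1 (-(α + β)) (by
      rw [one_smul, smul_eq_C_mul, h1, map_neg, map_add]
      ring)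
    exact one_ne_zero h4.1
  have hpair : ∀ i : Fin d, ∃ q : Fin r × Fin r, l i ∈ Submodule.span ℂ {m q.1, m q.2} := by
    intro i
    obtain ⟨k, -, hx⟩ := hk i
    obtain ⟨j0, j, hj, ⟨v, hv1, hv2⟩, hker⟩ := exists_pair l hl1 hl0 m hm hF hdr i k hx
    obtain ⟨α, β, h1⟩ := span_of_ker (hm j0) (hm j) (hl1 i) (fun x h2 h3 => hker x h3 h2)
    have hβ : β ≠ 0 := by
      intro h0
      refine not_proportional (by have := i.isLt; omega) _ (fun r' h => hleast h) m hm hF j0 j hj α ?_
      rw [h1, h0]; simp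
    refine ⟨(j0, j), ?_⟩
    rw [Submodule.mem_span_pair]
    refine ⟨β⁻¹, -(β⁻¹ * α), ?_⟩
    rw [h1, smul_eq_C_mul, smul_eq_C_mul]
    have h2 : (C β⁻¹ * C β : MvPolynomial (Fin (n + 1)) ℂ) = 1 := by
      rw [← map_mul, inv_mul_cancel₀ hβ, map_one]
    rw [map_neg, map_mul]
    linear_combination (l i) * h2
  choose q hq using hpair
  by_contra hcon
  push Not at hcon
  obtain ⟨y, -, hy⟩ := Finset.exists_lt_card_fiber_of_mul_lt_card_of_maps_to
    (s := (Finset.univ : Finset (Fin d))) (t := (Finset.univ : Finset (Fin r × Fin r)))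
    (f := q) (n := 2) (fun _ _ => Finset.mem_univ _) (by
      simp only [Finset.card_univ, Fintype.card_prod, Fintype.card_fin]
      nlinarith)
  obtain ⟨t, hty, ht⟩ := Finset.exists_subset_card_eq (by omega : 3 ≤
    (Finset.univ.filter (fun i => q i = y)).card)
  have hind := hthree t ht
  have hsub : ∀ i : t, l i ∈ Submodule.span ℂ {m y.1, m y.2} := by
    intro i
    have h1 := hty i.2
    simp only [Finset.mem_filter, Finset.mem_univ, true_and] at h1
    have h2 := hq i
    rwa [h1] at h2
  have hind2 : LinearIndependent ℂ (fun i : t =>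
      (⟨l i, hsub i⟩ : Submodule.span ℂ {m y.1, m y.2})) := by
    apply LinearIndependent.of_comp (Submodule.subtype _)
    exact hind
  have hfin : FiniteDimensional ℂ (Submodule.span ℂ {m y.1, m y.2}) :=
    FiniteDimensional.span_of_finite ℂ (Set.toFinite _)
  have h3 := hind2.fintype_card_le_finrank
  have h4 : Module.finrank ℂ (Submodule.span ℂ {m y.1, m y.2}) ≤ 2 := by
    have := finrank_span_le_card (R := ℂ) ({m y.1, m y.2} : Set (MvPolynomial (Fin (n + 1)) ℂ))
    refine this.trans ?_
    rw [Set.toFinset_insert, Set.toFinset_singleton]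
    exact Finset.card_le_two
  rw [Fintype.card_coe, ht] at h3
  omega

/-- For no `n ≥ 2` are there generic arrangements in `P^n` of arbitrarily large size with Waring rank
`(2n choose n)`. -/
theorem result : ∀ n : ℕ, 2 ≤ n → ¬ P n := by
  intro n hn hP
  obtain ⟨d, hd, l, hl, hr⟩ := hP ((2 * n).choose n + 2 * ((2 * n).choose n) ^ 2 + 1)
  have := bound hn l hl hr (by omega)
  omega

end Pool.Agent.Results.MP_02c618_ag.NoBoundedRank
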